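import Pool.Agent.LineGrowth.Prob
import Pool.Agent.LineGrowth.Det

/-!
# Symmetric line growth: the occupation time of the origin is `O(p ^ (-(r-1)))`

A group of `r - 1` neighbouring full lines nucleates crossing lines at density `p`. At distance
scale `C p ^ (-(r-1))` the number `M` of such groups therefore evolves (on disjoint dyadic blocks,
alternating horizontal and vertical lines) like `M ↦ c C M ^ (r-1)`, which explodes for large `C`
when `r ≥ 3`. No logarithmic factor is needed.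
-/

set_option autoImplicit false
open MeasureTheory Filter Topology
open scoped ENNReal

namespace Pool.Agent.Results.MP_383407_pr.OccupationTime

/-- The horizontal arm `x + ([-ρ, ρ] × {0})`. -/
def armH (ρ : ℕ) (x : ℤ × ℤ) : Set (ℤ × ℤ) := {y | |y.1 - x.1| ≤ ρ ∧ y.2 = x.2}

/-- The vertical arm `x + ({0} × [-ρ, ρ])`. -/
def armV (ρ : ℕ) (x : ℤ × ℤ) : Set (ℤ × ℤ) := {y | y.1 = x.1 ∧ |y.2 - x.2| ≤ ρ}

/-- One step of symmetric line growth with threshold `r` and radius `ρ`. -/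
def step (r ρ : ℕ) (ξ : Set (ℤ × ℤ)) : Set (ℤ × ℤ) :=
  ξ ∪ {x | r ≤ (armH ρ x ∩ ξ).ncard ∨ r ≤ (armV ρ x ∩ ξ).ncard}

/-- The occupied set at time `t`, started from `ξ₀`. -/
def config (r ρ : ℕ) (ξ₀ : Set (ℤ × ℤ)) (t : ℕ) : Set (ℤ × ℤ) := (step r ρ)^[t] ξ₀

/-- The first time at which the origin is occupied (infinite if it never is). -/
noncomputable def occTime (r ρ : ℕ) (ξ₀ : Set (ℤ × ℤ)) : ℝ≥0∞ :=
  ⨅ (t : ℕ) (_ : ((0 : ℤ), (0 : ℤ)) ∈ config r ρ ξ₀ t), (t : ℝ≥0∞)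

/-- The law of one site: `true` (occupied) with probability `p`. -/
noncomputable def siteLaw (p : ℝ) : Measure Bool :=
  ENNReal.ofReal p • Measure.dirac true + ENNReal.ofReal (1 - p) • Measure.dirac false

/-- The product law of the initial configuration. -/
noncomputable def initLaw (p : ℝ) : Measure (ℤ × ℤ → Bool) := Measure.infinitePi fun _ => siteLaw p

/-- The probability that the origin is occupied by time `t`. -/
noncomputable def probBy (r ρ : ℕ) (p t : ℝ) : ℝ≥0∞ :=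
  initLaw p {ω | occTime r ρ {x | ω x = true} ≤ ENNReal.ofReal t}

open Pool.Agent.LineGrowth in
/-- Quantitative bound. -/
lemma quantitative (r ρ : ℕ) (hr : 3 ≤ r) (hρ : r ≤ ρ) (W : ℝ) (hW4 : 4 ≤ W)
    (hWr : 2 ^ (r + 3) ≤ W) (p : ℝ) (h0 : 0 < p) (hp : p * (16 * W ^ 2) ≤ 1) (t : ℝ)
    (ht : 16 * r * W ≤ t * p ^ (r - 1)) :
    ENNReal.ofReal (1 - 4 / W) ≤ probBy r ρ p t := by
  have hW0 : 0 < W := by linarith
  have hW2 : 1 ≤ 16 * W ^ 2 := by nlinarith
  have h1 : p < 1 := by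
    have : p * 256 ≤ p * (16 * W ^ 2) := by
      apply mul_le_mul_of_nonneg_left _ h0.le
      nlinarith
    linarith
  have hpm : 0 < p ^ (r - 1) := by positivity
  -- choose `S`
  have hex : ∃ S : ℕ, 1 ≤ (16 : ℝ) ^ S * p := by
    obtain ⟨S, hS⟩ := pow_unbounded_of_one_lt (1 / p) (show (1 : ℝ) < 16 by norm_num)
    refine ⟨S, ?_⟩
    rw [div_lt_iff₀ h0] at hS
    exact hS.le
  classical
  obtain ⟨S, hS, hSmin⟩ : ∃ S : ℕ, 1 ≤ (16 : ℝ) ^ S * p ∧ ∀ k < S, (16 : ℝ) ^ k * p < 1 :=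
    ⟨Nat.find hex, Nat.find_spec hex, fun k hk => not_le.mp (Nat.find_min hex hk)⟩
  have hS1 : 1 ≤ S := by
    rcases Nat.eq_zero_or_pos S with h | h
    · rw [h] at hS; simp at hS; linarith
    · exact h
  obtain ⟨S', rfl⟩ : ∃ S', S = S' + 1 := ⟨S - 1, by omega⟩
  have hS' := hSmin S' (Nat.lt_succ_self _)
  -- choose `b`
  set b : ℕ := ⌈W / (2 ^ (S' + 1 + 1) * p ^ (r - 1))⌉₊ with hb
  set κ : ℝ := 2 ^ (S' + 1 + 1) * b * p ^ (r - 1) with hκ
  have hden : (0 : ℝ) < 2 ^ (S' + 1 + 1) * p ^ (r - 1) := by positivity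
  have hκW : W ≤ κ := by
    have h2 := Nat.le_ceil (W / (2 ^ (S' + 1 + 1) * p ^ (r - 1)))
    rw [div_le_iff₀ hden] at h2
    calc W ≤ (b : ℝ) * (2 ^ (S' + 1 + 1) * p ^ (r - 1)) := h2
      _ = κ := by rw [hκ]; ring
  have hsmall : (2 : ℝ) ^ (S' + 1 + 1) * p ^ (r - 1) ≤ 4 := by
    have e1 : (2 : ℝ) ^ (S' + 1 + 1) = 4 * 2 ^ S' := by ring
    have e2 : (2 : ℝ) ^ S' ≤ 16 ^ S' := pow_le_pow_left₀ (by norm_num) (by norm_num) S'
    have e3 : p ^ (r - 1) = p * p ^ (r - 2) := by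
      rw [← pow_succ']; congr 1; omega
    have e4 : p ^ (r - 2) ≤ 1 := pow_le_one₀ h0.le h1.le
    calc (2 : ℝ) ^ (S' + 1 + 1) * p ^ (r - 1) = 4 * (2 ^ S' * p) * p ^ (r - 2) := by
          rw [e1, e3]; ring
      _ ≤ 4 * (16 ^ S' * p) * 1 := by gcongr
      _ ≤ 4 := by linarith
  have hκ2 : κ ≤ 2 * W := by
    have h2 := (Nat.ceil_lt_add_one (show 0 ≤ W / (2 ^ (S' + 1 + 1) * p ^ (r - 1)) by
      positivity)).le
    have h3 : (b : ℝ) * (2 ^ (S' + 1 + 1) * p ^ (r - 1)) ≤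
        (W / (2 ^ (S' + 1 + 1) * p ^ (r - 1)) + 1) * (2 ^ (S' + 1 + 1) * p ^ (r - 1)) :=
      mul_le_mul_of_nonneg_right h2 hden.le
    rw [add_mul, one_mul, div_mul_cancel₀ _ hden.ne'] at h3
    calc κ = (b : ℝ) * (2 ^ (S' + 1 + 1) * p ^ (r - 1)) := by rw [hκ]; ring
      _ ≤ W + 2 ^ (S' + 1 + 1) * p ^ (r - 1) := h3
      _ ≤ 2 * W := by linarith
  have hM : W * 4 ^ (S' + 1) * p ≤ 1 := by
    have e1 : (W * 4 ^ (S' + 1) * p) ^ 2 = (p * (16 * W ^ 2)) * (16 ^ S' * p) := by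
      have : ((4 : ℝ) ^ S') ^ 2 = 16 ^ S' := by
        rw [← pow_mul, mul_comm, pow_mul]; norm_num
      calc (W * 4 ^ (S' + 1) * p) ^ 2 = 16 * W ^ 2 * p ^ 2 * ((4 : ℝ) ^ S') ^ 2 := by ring
        _ = _ := by rw [this]; ring
    have e2 : (W * 4 ^ (S' + 1) * p) ^ 2 ≤ 1 := by
      rw [e1]
      calc (p * (16 * W ^ 2)) * (16 ^ S' * p) ≤ 1 * 1 := by
            apply mul_le_mul hp hS'.le (by positivity) (by norm_num)
        _ = 1 := by norm_num
    have e3 : 0 ≤ W * 4 ^ (S' + 1) * p := by positivity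
    nlinarith
  have hx : 2 * κ * p ≤ 1 := by
    calc 2 * κ * p ≤ 2 * (2 * W) * p := by gcongr
      _ = p * (4 * W) := by ring
      _ ≤ p * (16 * W ^ 2) := by
          apply mul_le_mul_of_nonneg_left _ h0.le
          nlinarith
      _ ≤ 1 := hp
  have hκr : 2 * W ≤ κ ^ r := by
    calc 2 * W ≤ W ^ 2 := by nlinarith
      _ ≤ κ ^ 2 := pow_le_pow_left₀ hW0.le hκW 2
      _ ≤ κ ^ r := pow_le_pow_right₀ (by linarith) (by omega)
  have hκlam : (2 : ℝ) ^ (r - 1 + 4) ≤ κ * W := by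
    have : r - 1 + 4 = r + 3 := by omega
    rw [this]
    calc (2 : ℝ) ^ (r + 3) ≤ W := hWr
      _ = 1 * W := (one_mul _).symm
      _ ≤ κ * W := by gcongr; linarith
  have hfail := failure h0 h1.le r b (S' + 1) κ W hκ (by linarith) hr hx hW4 hκr hκlam hM hS
  haveI := Pool.Agent.LineGrowth.initLaw_prob h0.le h1.le
  -- measurability of the failure event
  have hmeas : MeasurableSet {ω : Cfg | lastCells r b (S' + 1) ω = ∅} := by
    have hd : DetBy {ω : Cfg | lastCells r b (S' + 1) ω = ∅}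
        (outer r b (S' + 1) 0) := by
      intro ω ω' h
      simp only [Set.mem_setOf_eq]
      have hV : V r b (S' + 1) ω (S' + 1) = V r b (S' + 1) ω' (S' + 1) := by
        apply V_congr r b (S' + 1) (by omega) (S' + 1) le_rfl
        intro x hx
        apply h
        exact outer_mono r b (S' + 1) (by positivity) hx
      unfold lastCells
      rw [hV]
      rw [goodCells_congr r _ (attS r (S' + 1 + 1)) r (cells b 0) ω ω']
      intro x hx
      apply h
      have hin := supp_inner r b (S' + 1) (S' + 1 + 1 - (S' + 1)) 0 (by omega) (by omega)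
        (S' + 1 + 1) _ (V_subset r b (S' + 1) ω' (S' + 1) le_rfl) (by omega) r le_rfl hx
      unfold Pool.Agent.LineGrowth.inner at hin
      unfold outer
      rw [Finset.mem_filter] at hin ⊢
      refine ⟨hin.1, ?_⟩
      have hbox := hin.1
      unfold box at hbox
      rw [Finset.mem_product, Finset.mem_Ico, Finset.mem_Ico] at hbox
      exact le_max_of_le_left hbox.1.1
    exact hd.measurableSet
  have hsucc : ENNReal.ofReal (1 - 4 / W) ≤
      Pool.Agent.LineGrowth.initLaw p {ω : Cfg | lastCells r b (S' + 1) ω = ∅}ᶜ := by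
    have h2 := probReal_compl_eq_one_sub (μ := Pool.Agent.LineGrowth.initLaw p) hmeas
    rw [← ofReal_measureReal, h2]
    apply ENNReal.ofReal_le_ofReal
    linarith
  refine hsucc.trans ?_
  unfold probBy
  apply measure_mono
  intro ω hω
  simp only [Set.mem_compl_iff, Set.mem_setOf_eq] at hω ⊢
  obtain ⟨c, hc⟩ := Finset.nonempty_iff_ne_empty.mpr hω
  obtain ⟨n, hn, hocc⟩ := origin_occupied (ρ := ρ) (by omega) hρ b (S' + 1) ω c hc
  have hle : occTime r ρ {x | ω x = true} ≤ (n : ℝ≥0∞) := by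
    unfold occTime
    exact iInf₂_le n hocc
  refine hle.trans ?_
  have hnt : (n : ℝ) ≤ t := by
    have e1 : (n : ℝ) ≤ r * 2 ^ (S' + 1 + 4) * b := by exact_mod_cast hn
    have e2 : (r * 2 ^ (S' + 1 + 4) * b : ℝ) * p ^ (r - 1) = 8 * r * κ := by
      rw [hκ]; ring
    have e3 : (n : ℝ) * p ^ (r - 1) ≤ t * p ^ (r - 1) := by
      calc (n : ℝ) * p ^ (r - 1) ≤ (r * 2 ^ (S' + 1 + 4) * b : ℝ) * p ^ (r - 1) := by gcongr
        _ = 8 * r * κ := e2
        _ ≤ 8 * r * (2 * W) := by gcongr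
        _ = 16 * r * W := by ring
        _ ≤ t * p ^ (r - 1) := ht
    exact le_of_mul_le_mul_right e3 hpm
  rw [← ENNReal.ofReal_natCast]
  exact ENNReal.ofReal_le_ofReal hnt

lemma upper (r ρ : ℕ) (hr : 3 ≤ r) (hρ : r ≤ ρ) (t : ℝ → ℝ)
    (ht : Tendsto (fun p : ℝ => t p * p ^ (r - 1)) (𝓝[>] 0) atTop) :
    Tendsto (fun p : ℝ => probBy r ρ p (t p)) (𝓝[>] 0) (𝓝 1) := by
  have hle1 : ∀ᶠ p : ℝ in 𝓝[>] 0, probBy r ρ p (t p) ≤ 1 := by
    have h1 : ∀ᶠ p : ℝ in 𝓝[>] 0, 0 < p := eventually_mem_nhdsWithin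
    have h2 : ∀ᶠ p : ℝ in 𝓝[>] 0, p < 1 := nhdsWithin_le_nhds (gt_mem_nhds one_pos)
    filter_upwards [h1, h2] with p hp0 hp1
    haveI : IsProbabilityMeasure (initLaw p) :=
      Pool.Agent.LineGrowth.initLaw_prob hp0.le hp1.le
    exact prob_le_one
  rw [tendsto_order]
  constructor
  · intro a ha
    -- choose `W` with `a < 1 - 4 / W`
    have hlim : Tendsto (fun W : ℝ => ENNReal.ofReal (1 - 4 / W)) atTop (𝓝 1) := by
      have : Tendsto (fun W : ℝ => 1 - 4 / W) atTop (𝓝 (1 - 0)) :=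
        tendsto_const_nhds.sub (tendsto_const_nhds.div_atTop tendsto_id)
      have h2 := ENNReal.tendsto_ofReal this
      simpa using h2
    obtain ⟨W, hWa, hW4, hWr⟩ := ((hlim.eventually (lt_mem_nhds ha)).and
      ((eventually_ge_atTop (4 : ℝ)).and (eventually_ge_atTop ((2 : ℝ) ^ (r + 3))))).exists
    have h1 : ∀ᶠ p : ℝ in 𝓝[>] 0, 0 < p := eventually_mem_nhdsWithin
    have h2 : ∀ᶠ p : ℝ in 𝓝[>] 0, p < 1 / (16 * W ^ 2) := by
      apply nhdsWithin_le_nhds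
      apply gt_mem_nhds
      positivity
    have h3 := ht.eventually_ge_atTop (16 * r * W)
    filter_upwards [h1, h2, h3] with p hp0 hp1 hp2
    refine hWa.trans_le (quantitative r ρ hr hρ W hW4 hWr p hp0 ?_ (t p) hp2)
    rw [lt_div_iff₀ (by positivity)] at hp1
    exact hp1.le
  · intro a ha
    filter_upwards [hle1] with p hp
    exact hp.trans_lt ha

/-- For every threshold `r ≥ 3` and radius `ρ ≥ r`: the origin is occupied by time `t` with
probability tending to one as soon as `t ≫ p ^ (-(r-1))`; in particular this happens for some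
`t ≪ p ^ (-(r-1)) * log (1/p)`, so the answer to the question is negative. -/
theorem result (r ρ : ℕ) (hr : 3 ≤ r) (hρ : r ≤ ρ) :
    (∀ t : ℝ → ℝ, Tendsto (fun p : ℝ => t p * p ^ (r - 1)) (𝓝[>] 0) atTop →
      Tendsto (fun p : ℝ => probBy r ρ p (t p)) (𝓝[>] 0) (𝓝 1)) ∧
    (∃ t : ℝ → ℝ,
      Tendsto (fun p : ℝ => t p / ((p ^ (r - 1))⁻¹ * Real.log (1 / p))) (𝓝[>] 0) (𝓝 0) ∧
      Tendsto (fun p : ℝ => probBy r ρ p (t p)) (𝓝[>] 0) (𝓝 1)) := by
  refine ⟨upper r ρ hr hρ, fun p => (p ^ (r - 1))⁻¹ * √(Real.log (1 / p)), ?_, ?_⟩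
  · have hlog : Tendsto (fun p : ℝ => Real.log (1 / p)) (𝓝[>] 0) atTop := by
      have : Tendsto (fun p : ℝ => 1 / p) (𝓝[>] 0) atTop := by
        simpa using tendsto_inv_nhdsGT_zero (𝕜 := ℝ)
      exact Real.tendsto_log_atTop.comp this
    have hsq : Tendsto (fun p : ℝ => (√(Real.log (1 / p)))⁻¹) (𝓝[>] 0) (𝓝 0) :=
      (Real.tendsto_sqrt_atTop.comp hlog).inv_tendsto_atTop
    refine hsq.congr' ?_
    have h1 : ∀ᶠ p : ℝ in 𝓝[>] 0, 0 < p := eventually_mem_nhdsWithin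
    have h2 := hlog.eventually_gt_atTop 0
    filter_upwards [h1, h2] with p hp0 hl
    have hs : √(Real.log (1 / p)) * √(Real.log (1 / p)) = Real.log (1 / p) :=
      Real.mul_self_sqrt hl.le
    have hs0 : 0 < √(Real.log (1 / p)) := Real.sqrt_pos.mpr hl
    have hpm : (p ^ (r - 1))⁻¹ ≠ 0 := by positivity
    rw [mul_div_mul_left _ _ hpm]
    nth_rewrite 3 [← hs]
    field_simp
  · apply upper r ρ hr hρ
    have hlog : Tendsto (fun p : ℝ => Real.log (1 / p)) (𝓝[>] 0) atTop := by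
      have : Tendsto (fun p : ℝ => 1 / p) (𝓝[>] 0) atTop := by
        simpa using tendsto_inv_nhdsGT_zero (𝕜 := ℝ)
      exact Real.tendsto_log_atTop.comp this
    refine (Real.tendsto_sqrt_atTop.comp hlog).congr' ?_
    have h1 : ∀ᶠ p : ℝ in 𝓝[>] 0, 0 < p := eventually_mem_nhdsWithin
    filter_upwards [h1] with p hp0
    simp only [Function.comp_apply]
    field_simp

end Pool.Agent.Results.MP_383407_pr.OccupationTime
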